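import Mathlib

set_option autoImplicit false

namespace Pool.Agent.Lib.PC70

/-- Primary conjugacy: `a = u v` and `b = v u` for some `u, v` in `S¹`. -/
def PConj {S : Type} [Semigroup S] (a b : S) : Prop :=
  ∃ u v : WithOne S, (a : WithOne S) = u * v ∧ (b : WithOne S) = v * u

/-- Primary conjugacy is transitive on every subsemigroup of `G`. -/
def AllTrans (G : Type) [Group G] : Prop :=
  ∀ S : Subsemigroup G, ∀ a b c : S, PConj a b → PConj b c → PConj a c

lemma pconj_iff {G : Type} [Group G] (S : Subsemigroup G) (a b : S) :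
    PConj a b ↔ (a : G) = b ∨ ∃ u ∈ S, ∃ v ∈ S, (a : G) = u * v ∧ (b : G) = v * u := by
  constructor
  · rintro ⟨u, v, h1, h2⟩
    induction u using WithOne.recOneCoe with
    | one =>
      left
      rw [one_mul] at h1
      rw [mul_one, ← h1, WithOne.coe_inj] at h2
      rw [h2]
    | coe u =>
      induction v using WithOne.recOneCoe with
      | one =>
        left
        rw [mul_one] at h1
        rw [one_mul, ← h1, WithOne.coe_inj] at h2
        rw [h2]
      | coe v =>
        right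
        rw [← WithOne.coe_mul, WithOne.coe_inj] at h1 h2
        exact ⟨u, u.2, v, v.2, by rw [h1]; rfl, by rw [h2]; rfl⟩
  · rintro (h | ⟨u, hu, v, hv, h1, h2⟩)
    · have : a = b := Subtype.ext h
      subst this
      exact ⟨1, a, by simp, by simp⟩
    · refine ⟨((⟨u, hu⟩ : S) : WithOne S), ((⟨v, hv⟩ : S) : WithOne S), ?_, ?_⟩
      · rw [← WithOne.coe_mul, WithOne.coe_inj]; exact Subtype.ext h1
      · rw [← WithOne.coe_mul, WithOne.coe_inj]; exact Subtype.ext h2

/-- The graded counterexample. -/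
lemma graded {G M : Type} [Group G] [Monoid M] (f : M →* G) (hf : Function.Injective f)
    (deg : M → ℤ) (hdeg : ∀ x y, deg (x * y) = deg x + deg y) (u v u' v' : M) (i j d : ℤ)
    (hu : deg u = i) (hv : deg v = d - i) (hu' : deg u' = j) (hv' : deg v' = d - j)
    (h1 : d < 3 * i) (h2 : d < 3 * j) (h3 : 2 * i < d) (h4 : 2 * j < d) (hij : i ≠ j)
    (hb : v * u = u' * v') (hab : u * v ≠ v * u) (hbc : v * u ≠ v' * u')
    (hac : u * v ≠ v' * u') : ¬ AllTrans G := by
  intro hT
  let P : M → Prop := fun m => m = u ∨ m = v ∨ m = u' ∨ m = v' ∨ 2 * d < 3 * deg m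
  have hP : ∀ m, P m → d < 3 * deg m := by
    rintro m (rfl | rfl | rfl | rfl | h) <;> omega
  let S : Subsemigroup G :=
    { carrier := {g | ∃ m, P m ∧ f m = g}
      mul_mem' := by
        rintro _ _ ⟨x, hx, rfl⟩ ⟨y, hy, rfl⟩
        refine ⟨x * y, ?_, map_mul f x y⟩
        have := hP x hx
        have := hP y hy
        have := hdeg x y
        right; right; right; right; omega }
  have mu : f u ∈ S := ⟨u, Or.inl rfl, rfl⟩
  have mv : f v ∈ S := ⟨v, Or.inr (Or.inl rfl), rfl⟩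
  have mu' : f u' ∈ S := ⟨u', Or.inr (Or.inr (Or.inl rfl)), rfl⟩
  have mv' : f v' ∈ S := ⟨v', Or.inr (Or.inr (Or.inr (Or.inl rfl))), rfl⟩
  have key := hT S ⟨f u * f v, S.mul_mem mu mv⟩ ⟨f v * f u, S.mul_mem mv mu⟩
    ⟨f v' * f u', S.mul_mem mv' mu'⟩
    ((pconj_iff S _ _).2 (Or.inr ⟨_, mu, _, mv, rfl, rfl⟩))
    ((pconj_iff S _ _).2 (Or.inr ⟨_, mu', _, mv', by
      change f v * f u = f u' * f v'
      rw [← map_mul, ← map_mul, hb], rfl⟩))
  rcases (pconj_iff S _ _).1 key with h | ⟨_, ⟨s, hs, rfl⟩, _, ⟨t, ht, rfl⟩, e1, e2⟩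
  · apply hac
    apply hf
    simpa using h
  · have e1' : u * v = s * t := hf (by simpa using e1)
    have e2' : v' * u' = t * s := hf (by simpa using e2)
    have d1 : deg s + deg t = d := by rw [← hdeg, ← e1', hdeg]; omega
    have := hP s hs
    have := hP t ht
    rcases hs with rfl | rfl | rfl | rfl | hs <;> rcases ht with rfl | rfl | rfl | rfl | ht <;>
      first
      | omega
      | exact hbc e2'.symm
      | exact hab e1'
      | exact hab (e1'.trans hb.symm)
      | exact hac e1'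

/-- A free subsemigroup on two generators gives a counterexample. -/
lemma free_not {G : Type} [Group G] (f : FreeMonoid (Fin 2) →* G) (hf : Function.Injective f) :
    ¬ AllTrans G := by
  refine graded f hf (fun w => (FreeMonoid.length w : ℤ)) (fun x y => by simp)
    (FreeMonoid.ofList [1, 1, 1, 1, 1]) (FreeMonoid.ofList [0, 1, 1, 1, 1, 1, 1, 1])
    (FreeMonoid.ofList [0, 1, 1, 1, 1, 1]) (FreeMonoid.ofList [1, 1, 1, 1, 1, 1, 1]) 5 6 13
    rfl rfl rfl rfl (by norm_num) (by norm_num) (by norm_num) (by norm_num) (by norm_num)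
    rfl ?_ ?_ ?_ <;>
  · rw [← FreeMonoid.ofList_append, ← FreeMonoid.ofList_append]
    intro h
    have := FreeMonoid.ofList.injective h
    revert this
    decide

/-- `a` has at least three conjugates. -/
def Three {H : Type} [Group H] (a : H) : Prop :=
  ∃ g h : H, g⁻¹ * a * g ≠ a ∧ h⁻¹ * a * h ≠ a ∧ g⁻¹ * a * g ≠ h⁻¹ * a * h

lemma conj_inj {H : Type} [Group H] (g : H) {a b : H} (h : g⁻¹ * a * g = g⁻¹ * b * g) :
    a = b := by simpa using h

section Deg

variable {H : Type} [Group H] (deg : H → ℤ) (hdeg : ∀ x y, deg (x * y) = deg x + deg y)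

include hdeg

lemma deg_one : deg 1 = 0 := by have := hdeg 1 1; simp at this; exact this

lemma deg_inv (x : H) : deg x⁻¹ = - deg x := by
  have := hdeg x x⁻¹
  rw [mul_inv_cancel, deg_one deg hdeg] at this
  omega

lemma deg_pow (x : H) (n : ℕ) : deg (x ^ n) = n * deg x := by
  induction n with
  | zero => simp [deg_one deg hdeg]
  | succ n ih => rw [pow_succ, hdeg, ih]; push_cast; ring

lemma deg_zpow (x : H) (n : ℤ) : deg (x ^ n) = n * deg x := by
  rcases Int.eq_nat_or_neg n with ⟨m, rfl | rfl⟩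
  · rw [zpow_natCast, deg_pow deg hdeg]
  · rw [zpow_neg, zpow_natCast, deg_inv deg hdeg, deg_pow deg hdeg]; ring

lemma deg_conj (g x : H) : deg (g⁻¹ * x * g) = deg x := by
  rw [hdeg, hdeg, deg_inv deg hdeg]; ring

/-- An element with three conjugates exists in arbitrarily large degree. -/
lemma large (x : H) (hx : deg x = 1) (a0 : H) (h0 : Three a0) (D : ℕ) :
    ∃ a : H, (D : ℤ) ≤ deg a ∧ Three a := by
  by_contra hno
  push Not at hno
  set y := x ^ (D + 1) with hy
  have dy : deg y = D + 1 := by rw [hy, deg_pow deg hdeg, hx]; push_cast; ring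
  have hy3 : ¬ Three y := hno y (by omega)
  obtain ⟨z, hz, dz⟩ : ∃ z : H, (∀ g : H, g⁻¹ * z * g = z) ∧ 1 ≤ deg z := by
    by_cases hc : ∀ g : H, g⁻¹ * y * g = y
    · exact ⟨y, hc, by omega⟩
    · push Not at hc
      obtain ⟨g0, hg0⟩ := hc
      set y' := g0⁻¹ * y * g0 with hy'
      have two : ∀ g : H, g⁻¹ * y * g = y ∨ g⁻¹ * y * g = y' := by
        intro g
        by_contra hh
        push Not at hh
        exact hy3 ⟨g, g0, hh.1, hg0, hh.2⟩
      have two' : ∀ g : H, g⁻¹ * y' * g = y ∨ g⁻¹ * y' * g = y' := by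
        intro g
        have : g⁻¹ * y' * g = (g0 * g)⁻¹ * y * (g0 * g) := by rw [hy']; group
        rw [this]; exact two _
      have fix : ∀ g : H, g⁻¹ * y * g = y → g⁻¹ * y' * g = y' := by
        intro g hg
        rcases two' g with h | h
        · exact absurd (conj_inj g (h.trans hg.symm)) hg0
        · exact h
      have comm : y' * y = y * y' := by
        have := fix y (by group)
        calc y' * y = y * (y⁻¹ * y' * y) := by group
          _ = y * y' := by rw [this]
      refine ⟨y * y', fun g => ?_, ?_⟩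
      · have e : g⁻¹ * (y * y') * g = (g⁻¹ * y * g) * (g⁻¹ * y' * g) := by group
        rcases two g with h | h
        · rw [e, h, fix g h]
        · rcases two' g with h' | h'
          · rw [e, h, h', comm]
          · exact absurd (conj_inj g (h'.trans h.symm)) hg0
      · rw [hdeg, hy', deg_conj deg hdeg]; omega
  obtain ⟨g, h, p1, p2, p3⟩ := h0
  set n : ℕ := D + (deg a0).natAbs with hn
  have hzn : ∀ g : H, g⁻¹ * z ^ n * g = z ^ n := by
    intro g
    have : g⁻¹ * z ^ n * g = (g⁻¹ * z * g⁻¹⁻¹) ^ n := by rw [conj_pow]; simp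
    rw [this, inv_inv, hz]
  have e : ∀ g : H, g⁻¹ * (a0 * z ^ n) * g = (g⁻¹ * a0 * g) * z ^ n := by
    intro g
    calc g⁻¹ * (a0 * z ^ n) * g = (g⁻¹ * a0 * g) * (g⁻¹ * z ^ n * g) := by group
      _ = _ := by rw [hzn]
  refine hno (a0 * z ^ n) ?_ ⟨g, h, ?_, ?_, ?_⟩
  · rw [hdeg, deg_pow deg hdeg]
    have : (n : ℤ) ≤ n * deg z := by nlinarith [Int.natCast_nonneg n]
    have : (n : ℤ) = D + (deg a0).natAbs := by rw [hn]; push_cast; ring
    omega
  · rw [e]; simpa using p1
  · rw [e]; simpa using p2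
  · rw [e, e]; simpa using p3

/-- Choice of two different degrees in a short window. -/
lemma pick (x : H) (hx : deg x = 1) (a : H) (h3 : Three a) (t : ℤ) :
    ∃ u w : H, t ≤ deg u ∧ deg u ≤ t + 4 ∧ t ≤ deg w ∧ deg w ≤ t + 4 ∧ deg u ≠ deg w ∧
      u⁻¹ * a * u ≠ a ∧ (u * w)⁻¹ * a * (u * w) ≠ a ∧
      (u * w)⁻¹ * a * (u * w) ≠ u⁻¹ * a * u := by
  obtain ⟨g, h, p1, p2, p3⟩ := h3
  have dx : ∀ n : ℤ, deg (x ^ n) = n := fun n => by rw [deg_zpow deg hdeg, hx, mul_one]
  by_cases hB : (∃ w1, deg w1 = t ∧ w1⁻¹ * a * w1 = a) ∧ ∃ w2, deg w2 = t + 1 ∧ w2⁻¹ * a * w2 = a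
  · obtain ⟨⟨w1, d1, e1⟩, w2, d2, e2⟩ := hB
    set x' := w1⁻¹ * w2 with hx'
    have dx' : deg x' = 1 := by rw [hx', hdeg, deg_inv deg hdeg]; omega
    have c1 : Commute w1 a := by
      change w1 * a = a * w1
      calc w1 * a = w1 * (w1⁻¹ * a * w1) := by rw [e1]
        _ = a * w1 := by group
    have c2 : Commute w2 a := by
      change w2 * a = a * w2
      calc w2 * a = w2 * (w2⁻¹ * a * w2) := by rw [e2]
        _ = a * w2 := by group
    have c : Commute x' a := c1.inv_left.mul_left c2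
    have any : ∀ (g : H) (n : ℤ), ∃ u, deg u = n ∧ u⁻¹ * a * u = g⁻¹ * a * g := by
      intro g n
      refine ⟨x' ^ (n - deg g) * g, ?_, ?_⟩
      · rw [hdeg, deg_zpow deg hdeg, dx']; ring
      · have := (c.zpow_left (n - deg g)).eq
        calc (x' ^ (n - deg g) * g)⁻¹ * a * (x' ^ (n - deg g) * g)
            = g⁻¹ * (x' ^ (n - deg g))⁻¹ * (a * x' ^ (n - deg g)) * g := by group
          _ = g⁻¹ * a * g := by rw [← this]; group
    obtain ⟨u, du, eu⟩ := any g t
    obtain ⟨w, dw, ew⟩ := any h (2 * t + 1)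
    have dd : deg (u⁻¹ * w) = t + 1 := by rw [hdeg, deg_inv deg hdeg]; omega
    refine ⟨u, u⁻¹ * w, by omega, by omega, by omega, by omega, by omega, by rwa [eu], ?_, ?_⟩
    · rw [mul_inv_cancel_left, ew]; exact p2
    · rw [mul_inv_cancel_left, ew, eu]; exact p3.symm
  · by_cases hK : ∃ k, deg k = 0 ∧ k⁻¹ * a * k ≠ a
    · obtain ⟨k, dk, ek⟩ := hK
      obtain ⟨i, j, hi, hj, hij, hA⟩ : ∃ i j : ℤ, (t ≤ i ∧ i ≤ t + 4) ∧ (t ≤ j ∧ j ≤ t + 4) ∧
          i ≠ j ∧ ∀ u, deg u = i → u⁻¹ * a * u ≠ a := by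
        rw [not_and_or] at hB
        rcases hB with hB | hB
        · push Not at hB
          exact ⟨t, t + 1, by omega, by omega, by omega, hB⟩
        · push Not at hB
          exact ⟨t + 1, t, by omega, by omega, by omega, hB⟩
      set u := x ^ i with hu
      set w1 := x ^ j with hw1
      set w2 := u⁻¹ * k * u * x ^ j with hw2
      have du : deg u = i := dx i
      have d1 : deg w1 = j := dx j
      have d2 : deg w2 = j := by rw [hw2, hdeg, deg_conj deg hdeg, dk, dx]; ring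
      have ne : (u * w1)⁻¹ * a * (u * w1) ≠ (u * w2)⁻¹ * a * (u * w2) := by
        intro e
        apply ek
        have : (u * w2)⁻¹ * a * (u * w2) = (u * w1)⁻¹ * (k⁻¹ * a * k) * (u * w1) := by
          rw [hw2, hw1]; group
        rw [this] at e
        exact (conj_inj _ e).symm
      have excl : ∀ p q : H, deg p = deg q → (u * p)⁻¹ * a * (u * p) = a →
          (u * q)⁻¹ * a * (u * q) = u⁻¹ * a * u → False := by
        intro p q dpq ep eq
        refine hA (u * q⁻¹ * p) ?_ ?_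
        · rw [hdeg, hdeg, deg_inv deg hdeg]; omega
        · have e3 : q * (u⁻¹ * a * u) * q⁻¹ = u⁻¹ * a * u := by
            conv_lhs => rw [← eq]
            group
          calc (u * q⁻¹ * p)⁻¹ * a * (u * q⁻¹ * p)
              = p⁻¹ * (q * (u⁻¹ * a * u) * q⁻¹) * p := by group
            _ = (u * p)⁻¹ * a * (u * p) := by rw [e3]; group
            _ = a := ep
      by_contra hno
      push Not at hno
      have n1 := hno u w1 (by omega) (by omega) (by omega) (by omega) (by omega) (hA u du)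
      have n2 := hno u w2 (by omega) (by omega) (by omega) (by omega) (by omega) (hA u du)
      by_cases q1 : (u * w1)⁻¹ * a * (u * w1) = a
      · by_cases q2 : (u * w2)⁻¹ * a * (u * w2) = a
        · exact ne (q1.trans q2.symm)
        · exact excl w1 w2 (by omega) q1 (n2 q2)
      · by_cases q2 : (u * w2)⁻¹ * a * (u * w2) = a
        · exact excl w2 w1 (by omega) q2 (n1 q1)
        · exact ne ((n1 q1).trans (n2 q2).symm)
    · push Not at hK
      have red : ∀ g : H, g⁻¹ * a * g = (x ^ deg g)⁻¹ * a * x ^ deg g := by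
        intro g
        have := hK (g * (x ^ deg g)⁻¹) (by rw [hdeg, deg_inv deg hdeg, dx]; ring)
        calc g⁻¹ * a * g = (x ^ deg g)⁻¹ * ((g * (x ^ deg g)⁻¹)⁻¹ * a * (g * (x ^ deg g)⁻¹)) *
              x ^ deg g := by group
          _ = _ := by rw [this]
      let P : ℤ → Prop := fun n => Commute (x ^ n) a
      have Psub : ∀ m n, P m → P n → P (m - n) := by
        intro m n hm hn
        change Commute (x ^ (m - n)) a
        rw [zpow_sub]
        exact hm.mul_left hn.inv_left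
      have Pmul : ∀ m k, P m → P (m * k) := by
        intro m k hm
        change Commute (x ^ (m * k)) a
        rw [zpow_mul]
        exact hm.zpow_left k
      have Peq : ∀ m n : ℤ, P (m - n) ↔ (x ^ m)⁻¹ * a * x ^ m = (x ^ n)⁻¹ * a * x ^ n := by
        intro m n
        change x ^ (m - n) * a = a * x ^ (m - n) ↔ _
        constructor
        · intro e
          calc (x ^ m)⁻¹ * a * x ^ m = (x ^ m)⁻¹ * (a * x ^ (m - n)) * x ^ n := by group
            _ = _ := by rw [← e]; group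
        · intro e
          calc x ^ (m - n) * a = x ^ m * ((x ^ n)⁻¹ * a * x ^ n) * (x ^ n)⁻¹ := by group
            _ = _ := by rw [← e]; group
      have Pz : ∀ m : ℤ, P m ↔ (x ^ m)⁻¹ * a * x ^ m = a := by
        intro m
        simpa using Peq m 0
      rw [red g] at p1 p3
      rw [red h] at p2 p3
      rw [Ne, ← Pz] at p1 p2
      rw [Ne, ← Peq] at p3
      have P2 : ¬ P 2 := by
        intro h2
        rcases Int.even_or_odd' (deg g) with ⟨m, hm | hm⟩
        · exact p1 (hm ▸ Pmul 2 m h2)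
        · rcases Int.even_or_odd' (deg h) with ⟨n, hn | hn⟩
          · exact p2 (hn ▸ Pmul 2 n h2)
          · apply p3
            have : deg g - deg h = 2 * (m - n) := by omega
            exact this ▸ Pmul 2 _ h2
      have P1 : ¬ P 1 := fun h1 => P2 (by simpa using Pmul 1 2 h1)
      have nb : ∀ m n, P m → P n → m - n ≠ 1 ∧ m - n ≠ 2 := fun m n hm hn =>
        ⟨fun e => P1 (e ▸ Psub m n hm hn), fun e => P2 (e ▸ Psub m n hm hn)⟩
      obtain ⟨i, hi, Pi⟩ : ∃ i, (t ≤ i ∧ i ≤ t + 1) ∧ ¬ P i := by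
        by_cases q : P t
        · exact ⟨t + 1, by omega, fun q' => (nb _ _ q' q).1 (by ring)⟩
        · exact ⟨t, by omega, q⟩
      obtain ⟨j1, j2, hj, Pj1, Pj2⟩ : ∃ j1 j2, (t + 2 ≤ j1 ∧ j1 < j2 ∧ j2 ≤ t + 4) ∧
          ¬ P j1 ∧ ¬ P j2 := by
        by_cases q2 : P (t + 2)
        · exact ⟨t + 3, t + 4, by omega, fun q => (nb _ _ q q2).1 (by ring),
            fun q => (nb _ _ q q2).2 (by ring)⟩
        · by_cases q3 : P (t + 3)
          · exact ⟨t + 2, t + 4, by omega, q2, fun q => (nb _ _ q q3).1 (by ring)⟩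
          · exact ⟨t + 2, t + 3, by omega, q2, q3⟩
      obtain ⟨j, hj', Pj, Pij⟩ : ∃ j, (t + 2 ≤ j ∧ j ≤ t + 4) ∧ ¬ P j ∧ ¬ P (i + j) := by
        by_cases q : P (i + j1)
        · refine ⟨j2, by omega, Pj2, fun q' => ?_⟩
          have := nb _ _ q' q
          omega
        · exact ⟨j1, by omega, Pj1, q⟩
      refine ⟨x ^ i, x ^ j, ?_, ?_, ?_, ?_, ?_, ?_, ?_, ?_⟩
      iterate 4 (rw [dx]; omega)
      · rw [dx, dx]; omega
      · rwa [Ne, ← Pz]
      · rwa [← zpow_add, Ne, ← Pz]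
      · rw [← zpow_add, Ne, ← Peq]
        simpa using Pj

end Deg

/-- A subgroup with a nonzero homomorphism to the integers has no class of size three. -/
lemma not_three {G H : Type} [Group G] [Group H] (hT : AllTrans G) (f : H →* G)
    (hf : Function.Injective f) (ψ : H → ℤ) (hψ : ∀ x y, ψ (x * y) = ψ x + ψ y)
    (hne : ∃ x, ψ x ≠ 0) (a0 : H) : ¬ Three a0 := by
  intro h0
  let R : AddSubgroup ℤ :=
    { carrier := Set.range ψ
      add_mem' := by rintro _ _ ⟨x, rfl⟩ ⟨y, rfl⟩; exact ⟨x * y, hψ x y⟩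
      zero_mem' := ⟨1, deg_one ψ hψ⟩
      neg_mem' := by rintro _ ⟨x, rfl⟩; exact ⟨x⁻¹, deg_inv ψ hψ x⟩ }
  obtain ⟨δ, hδ⟩ := Int.subgroup_cyclic R
  have hm : ∀ g, ∃ n : ℤ, ψ g = n * δ := by
    intro g
    have : ψ g ∈ AddSubgroup.closure {δ} := hδ ▸ (⟨g, rfl⟩ : ψ g ∈ R)
    obtain ⟨n, hn⟩ := AddSubgroup.mem_closure_singleton.1 this
    exact ⟨n, by simpa using hn.symm⟩
  have δ0 : δ ≠ 0 := by
    rintro rfl
    obtain ⟨x, hx⟩ := hne
    obtain ⟨n, hn⟩ := hm x
    exact hx (by simpa using hn)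
  obtain ⟨x, hx⟩ : δ ∈ R := hδ ▸ AddSubgroup.subset_closure rfl
  let deg : H → ℤ := fun g => ψ g / δ
  have hdeg : ∀ x y, deg (x * y) = deg x + deg y := by
    intro x y
    obtain ⟨m, hm1⟩ := hm x
    obtain ⟨n, hn1⟩ := hm y
    change ψ (x * y) / δ = ψ x / δ + ψ y / δ
    rw [hψ, hm1, hn1, ← add_mul, Int.mul_ediv_cancel _ δ0, Int.mul_ediv_cancel _ δ0,
      Int.mul_ediv_cancel _ δ0]
  have dx : deg x = 1 := by
    change ψ x / δ = 1
    rw [hx, Int.ediv_self δ0]
  obtain ⟨a, da, h3⟩ := large deg hdeg x dx a0 h0 40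
  obtain ⟨u, w, b1, b2, b3, b4, b5, e1, e2, e3⟩ := pick deg hdeg x dx a h3 (deg a / 3 + 1)
  refine graded f hf deg hdeg u (u⁻¹ * a) w (w⁻¹ * (u⁻¹ * a * u)) (deg u) (deg w) (deg a)
    rfl ?_ rfl ?_ (by omega) (by omega) (by omega) (by omega) b5 (by group) ?_ ?_ ?_ hT
  · rw [hdeg, deg_inv deg hdeg]; ring
  · rw [hdeg, deg_inv deg hdeg, deg_conj deg hdeg]; ring
  · rw [mul_inv_cancel_left]; exact e1.symm
  · intro e; apply e3; rw [e]; group
  · rw [mul_inv_cancel_left]
    intro e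
    apply e2
    calc (u * w)⁻¹ * a * (u * w) = w⁻¹ * (u⁻¹ * a * u) * w := by group
      _ = a := e.symm

end Pool.Agent.Lib.PC70
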