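import Pool.Agent.Lib.PC70.Graded

set_option autoImplicit false

namespace Pool.Agent.Lib.PC70

open scoped commutatorElement

/-- The subgroup generated by the elements of infinite order. -/
def infGen (G : Type) [Group G] : Subgroup G := Subgroup.closure {x | ¬ IsOfFinOrder x}

/-- Every finitely generated subgroup that has an element of infinite order and contains no
free subsemigroup on two generators has a finite index subgroup with a nontrivial
homomorphism to the integers. -/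
def Tame (G : Type) [Group G] : Prop :=
  ∀ H : Subgroup G, H.FG → (∃ x ∈ H, ¬ IsOfFinOrder x) →
    (∀ x ∈ H, ∀ y ∈ H,
      ¬ Function.Injective (FreeMonoid.lift ![x, y] : FreeMonoid (Fin 2) →* G)) →
    ∃ N : Subgroup H, N.FiniteIndex ∧ ∃ φ : N →* Multiplicative ℤ, φ ≠ 1

variable {G : Type} [Group G]

/-- If all classes have at most two elements there is only one nontrivial commutator. -/
lemma one_comm (h : ∀ a : G, ¬ Three a) :
    ∃ γ : G, γ * γ = 1 ∧ ∀ x y : G, x⁻¹ * (y⁻¹ * x * y) = 1 ∨ x⁻¹ * (y⁻¹ * x * y) = γ := by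
  have same : ∀ x y z : G, y⁻¹ * x * y ≠ x → z⁻¹ * x * z ≠ x →
      x⁻¹ * (y⁻¹ * x * y) = x⁻¹ * (z⁻¹ * x * z) := by
    intro x y z h1 h2
    by_contra hh
    exact h x ⟨y, z, h1, h2, fun e => hh (by rw [e])⟩
  have symm : ∀ x y : G, y⁻¹ * x * y ≠ x → x⁻¹ * y * x ≠ y := by
    intro x y h1 e
    apply h1
    calc y⁻¹ * x * y = y⁻¹ * x * (x⁻¹ * y * x) := by rw [e]
      _ = x := by group
  have out : ∀ x x' y y' : G, y⁻¹ * x * y ≠ x → y'⁻¹ * x' * y' ≠ x' →
      ∃ z : G, z⁻¹ * x * z ≠ x ∧ z⁻¹ * x' * z ≠ x' := by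
    intro x x' y y' h1 h2
    by_cases q1 : y⁻¹ * x' * y = x'
    · by_cases q2 : y'⁻¹ * x * y' = x
      · refine ⟨y * y', fun e => h1 ?_, fun e => h2 ?_⟩
        · apply conj_inj y'
          rw [q2]
          calc y'⁻¹ * (y⁻¹ * x * y) * y' = (y * y')⁻¹ * x * (y * y') := by group
            _ = x := e
        · calc y'⁻¹ * x' * y' = y'⁻¹ * (y⁻¹ * x' * y) * y' := by rw [q1]
            _ = (y * y')⁻¹ * x' * (y * y') := by group
            _ = x' := e
      · exact ⟨y', q2, h2⟩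
    · exact ⟨y, h1, q1⟩
  have all : ∀ x y x' y' : G, y⁻¹ * x * y ≠ x → y'⁻¹ * x' * y' ≠ x' →
      x⁻¹ * (y⁻¹ * x * y) = x'⁻¹ * (y'⁻¹ * x' * y') := by
    intro x y x' y' h1 h2
    obtain ⟨z, z1, z2⟩ := out x x' y y' h1 h2
    rw [same x y z h1 z1, same x' y' z h2 z2]
    have := same z x x' (symm _ _ z1) (symm _ _ z2)
    calc x⁻¹ * (z⁻¹ * x * z) = (z⁻¹ * (x⁻¹ * z * x))⁻¹ := by group
      _ = (z⁻¹ * (x'⁻¹ * z * x'))⁻¹ := by rw [this]
      _ = _ := by group
  by_cases hc : ∀ x y : G, y⁻¹ * x * y = x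
  · exact ⟨1, by simp, fun x y => Or.inl (by rw [hc]; simp)⟩
  · push Not at hc
    obtain ⟨x0, y0, h0⟩ := hc
    refine ⟨x0⁻¹ * (y0⁻¹ * x0 * y0), ?_, fun x y => ?_⟩
    · have := all _ _ _ _ h0 (symm _ _ h0)
      nth_rewrite 2 [this]
      group
    · by_cases q : y⁻¹ * x * y = x
      · left; rw [q]; simp
      · right; exact all _ _ _ _ q h0

/-- Commutators inside a subgroup with a nonzero additive function. -/
lemma sub_comm (hT : AllTrans G) (L : Subgroup G) (ψ : G → ℤ)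
    (hψ : ∀ x ∈ L, ∀ y ∈ L, ψ (x * y) = ψ x + ψ y) (hne : ∃ x ∈ L, ψ x ≠ 0) :
    ∃ γ : G, γ * γ = 1 ∧ ∀ x ∈ L, ∀ y ∈ L,
      x⁻¹ * (y⁻¹ * x * y) = 1 ∨ x⁻¹ * (y⁻¹ * x * y) = γ := by
  obtain ⟨x0, hx0, h0⟩ := hne
  obtain ⟨γ, h1, h2⟩ := one_comm (G := L) (not_three hT L.subtype L.subtype_injective
    (fun x => ψ x) (fun x y => hψ x x.2 y y.2) ⟨⟨x0, hx0⟩, h0⟩)
  refine ⟨γ, by simpa using congrArg Subtype.val h1, fun x hx y hy => ?_⟩
  rcases h2 ⟨x, hx⟩ ⟨y, hy⟩ with e | e
  · left; simpa using congrArg Subtype.val e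
  · right; simpa using congrArg Subtype.val e

/-- Transfer: an additive function on a normal subgroup of finite index, constant and nonzero
on the class of one element, gives a nonzero homomorphism on the whole group. -/
lemma transfer_ne (N : Subgroup G) [N.Normal] [N.FiniteIndex] (ψ : G → ℤ)
    (hψ : ∀ x ∈ N, ∀ y ∈ N, ψ (x * y) = ψ x + ψ y) (y : G) (hy : y ∈ N) (h0 : ψ y ≠ 0)
    (hinv : ∀ g : G, ψ (g⁻¹ * y * g) = ψ y) :
    ∃ Φ : G → ℤ, (∀ x y, Φ (x * y) = Φ x + Φ y) ∧ Φ y ≠ 0 := by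
  classical
  let φ : N →* Multiplicative ℤ := MonoidHom.mk' (fun n => Multiplicative.ofAdd (ψ n))
    (fun a b => by rw [← ofAdd_add, ← hψ a a.2 b b.2]; rfl)
  refine ⟨fun g => (MonoidHom.transfer φ g).toAdd, fun a b => by simp, ?_⟩
  have := N.fintypeQuotientOfFiniteIndex
  have : Fintype (Quotient (MulAction.orbitRel (Subgroup.zpowers y) (G ⧸ N))) :=
    Fintype.ofFinite _
  change (MonoidHom.transfer φ y).toAdd ≠ 0
  rw [MonoidHom.transfer_eq_prod_quotient_orbitRel_zpowers_quot, toAdd_prod]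
  have term : ∀ (g : G) (k : ℕ) (h : g⁻¹ * y ^ k * g ∈ N),
      (φ ⟨g⁻¹ * y ^ k * g, h⟩).toAdd = k * ψ y := by
    intro g k h
    have hm : g⁻¹ * y * g ∈ N := by
      simpa using (inferInstance : N.Normal).conj_mem y hy g⁻¹
    have : (⟨g⁻¹ * y ^ k * g, h⟩ : N) = ⟨g⁻¹ * y * g, hm⟩ ^ k := by
      apply Subtype.ext
      have := conj_pow (a := g⁻¹) (b := y) (i := k)
      simpa using this.symm
    rw [this, map_pow, toAdd_pow]
    change k • ψ (g⁻¹ * y * g) = _
    rw [hinv]; simp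
  simp only [term]
  rw [← Finset.sum_mul]
  refine mul_ne_zero (ne_of_gt ?_) h0
  refine Finset.sum_pos (fun q _ => ?_) ⟨Quotient.mk _ (QuotientGroup.mk 1), Finset.mem_univ _⟩
  exact_mod_cast Nat.pos_of_ne_zero (NeZero.ne _)

/-- The same inside a subgroup `L` containing `N`. -/
lemma transfer_sub (N L : Subgroup G) [N.Normal] [N.FiniteIndex] (hNL : N ≤ L) (ψ : G → ℤ)
    (hψ : ∀ x ∈ N, ∀ y ∈ N, ψ (x * y) = ψ x + ψ y) (y : G) (hy : y ∈ N) (h0 : ψ y ≠ 0)
    (hinv : ∀ g ∈ L, ψ (g⁻¹ * y * g) = ψ y) :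
    ∃ Φ : G → ℤ, (∀ x ∈ L, ∀ y ∈ L, Φ (x * y) = Φ x + Φ y) ∧ ∃ x ∈ L, Φ x ≠ 0 := by
  classical
  obtain ⟨Φ, h1, h2⟩ := transfer_ne (G := L) (N.subgroupOf L) (fun x => ψ x)
    (fun a ha b hb => hψ a ha b hb) ⟨y, hNL hy⟩ hy h0 (fun g => hinv g g.2)
  refine ⟨fun g => if h : g ∈ L then Φ ⟨g, h⟩ else 0, fun a ha b hb => ?_, y, hNL hy, ?_⟩
  · simp only [ha, hb, L.mul_mem ha hb, dif_pos]
    exact h1 ⟨a, ha⟩ ⟨b, hb⟩
  · simp only [hNL hy, dif_pos]
    exact h2

lemma fg_dual {A : Type} [AddCommGroup A] [Module.Finite ℤ A] (y : A)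
    (hy : ∀ k : ℤ, k ≠ 0 → k • y ≠ 0) : ∃ f : A →ₗ[ℤ] ℤ, f y ≠ 0 := by
  have h : (Submodule.torsion ℤ A).mkQ y ≠ 0 := by
    intro e
    rw [Submodule.mkQ_apply, Submodule.Quotient.mk_eq_zero] at e
    obtain ⟨⟨k, hk⟩, e⟩ := e
    exact hy k (nonZeroDivisors.ne_zero hk) e
  obtain ⟨φ, hφ⟩ := Module.Projective.exists_dual_ne_zero ℤ h
  exact ⟨φ ∘ₗ (Submodule.torsion ℤ A).mkQ, hφ⟩

/-- In a finitely generated group with one commutator of order two, an element of infinite
order survives in the integers. -/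
lemma survive [Group.FG G] (γ : G) (hγ : γ * γ = 1)
    (h : ∀ x y : G, x⁻¹ * (y⁻¹ * x * y) = 1 ∨ x⁻¹ * (y⁻¹ * x * y) = γ) (y : G)
    (hy : ¬ IsOfFinOrder y) : ∃ ψ : G → ℤ, (∀ a b, ψ (a * b) = ψ a + ψ b) ∧ ψ y ≠ 0 := by
  have : Group.FG (Abelianization G) :=
    Group.fg_of_surjective (f := Abelianization.of) (QuotientGroup.mk'_surjective _)
  have : Module.Finite ℤ (Additive (Abelianization G)) :=
    Module.Finite.iff_addGroup_fg.2 inferInstance
  have hc : commutator G ≤ Subgroup.zpowers γ := by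
    rw [commutator_def, Subgroup.commutator_le]
    intro a _ b _
    have e : ⁅a, b⁆ = a⁻¹⁻¹ * (b⁻¹⁻¹ * a⁻¹ * b⁻¹) := by rw [commutatorElement_def]; group
    rw [e]
    rcases h a⁻¹ b⁻¹ with q | q <;> rw [q]
    · exact one_mem _
    · exact Subgroup.mem_zpowers γ
  obtain ⟨f, hf⟩ := fg_dual (Additive.ofMul (Abelianization.of y)) (by
    intro k hk e
    have e1 : Abelianization.of (y ^ k) = 1 := by
      rw [map_zpow]; exact e
    have e2 : y ^ k ∈ commutator G := (QuotientGroup.eq_one_iff _).1 e1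
    obtain ⟨n, hn⟩ := Subgroup.mem_zpowers_iff.1 (hc e2)
    apply hy
    refine isOfFinOrder_iff_zpow_eq_one.2 ⟨k * 2, by omega, ?_⟩
    rw [zpow_mul, ← hn, ← zpow_mul, mul_comm, zpow_mul, zpow_two, hγ, one_zpow])
  exact ⟨fun g => f (Additive.ofMul (Abelianization.of g)), fun a b => by simp, hf⟩

/-- The key step. -/
lemma key [Group.FG G] (hT : AllTrans G) (N : Subgroup G) [N.FiniteIndex]
    (φ : N →* Multiplicative ℤ) (hφ : φ ≠ 1) (hgen : infGen G = ⊤) (a : G) : ¬ Three a := by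
  classical
  let M := N.normalCore
  have hMN : M ≤ N := N.normalCore_le
  let ψ : G → ℤ := fun g => if h : g ∈ N then (φ ⟨g, h⟩).toAdd else 0
  have hψN : ∀ x ∈ N, ∀ y ∈ N, ψ (x * y) = ψ x + ψ y := by
    intro x hx y hy
    simp only [ψ, hx, hy, N.mul_mem hx hy, dif_pos]
    rw [← toAdd_mul, ← map_mul]; rfl
  have hψ : ∀ x ∈ M, ∀ y ∈ M, ψ (x * y) = ψ x + ψ y :=
    fun x hx y hy => hψN x (hMN hx) y (hMN hy)
  have m0 : M.index ≠ 0 := Subgroup.FiniteIndex.index_ne_zero
  obtain ⟨y0, hy0, hy0'⟩ : ∃ y ∈ M, ψ y ≠ 0 := by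
    obtain ⟨n, hn⟩ : ∃ n, φ n ≠ 1 := by
      by_contra hh
      push Not at hh
      exact hφ (MonoidHom.ext hh)
    refine ⟨(n : G) ^ M.index, M.pow_index_mem _, ?_⟩
    have hm : (n : G) ^ M.index ∈ N := N.pow_mem n.2 _
    simp only [ψ, hm, dif_pos]
    have : (⟨(n : G) ^ M.index, hm⟩ : N) = n ^ M.index := rfl
    rw [this, map_pow, toAdd_pow]
    simpa [m0] using hn
  have cm : ∀ g, ∀ n ∈ M, g⁻¹ * n * g ∈ M := fun g n hn => by
    simpa using (inferInstance : M.Normal).conj_mem n hn g⁻¹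
  obtain ⟨γ, hγ, hcomm⟩ := sub_comm hT M ψ hψ ⟨y0, hy0, hy0'⟩
  have hfix : ∀ g : G, ¬ IsOfFinOrder g → ∀ n ∈ M, ψ (g⁻¹ * n * g) = ψ n := by
    intro g hg n hn
    have ym : g ^ M.index ∈ M := M.pow_index_mem g
    have yi : ¬ IsOfFinOrder (⟨g ^ M.index, ym⟩ : M) := by
      intro e
      apply hg
      have : IsOfFinOrder (g ^ M.index) := M.subtype.isOfFinOrder e
      exact (isOfFinOrder_pow.1 this).resolve_right m0
    obtain ⟨γ', hγ', hc'⟩ := one_comm (G := M) (not_three hT M.subtype M.subtype_injective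
      (fun x => ψ x) (fun x y => hψ x x.2 y y.2) ⟨⟨y0, hy0⟩, hy0'⟩)
    obtain ⟨ψ0, a0, n0⟩ := survive γ' hγ' hc' _ yi
    let ψ1 : G → ℤ := fun x => if h : x ∈ M then ψ0 ⟨x, h⟩ else 0
    have a1 : ∀ x ∈ M, ∀ y ∈ M, ψ1 (x * y) = ψ1 x + ψ1 y := by
      intro x hx y hy
      simp only [ψ1, hx, hy, M.mul_mem hx hy, dif_pos]
      exact a0 ⟨x, hx⟩ ⟨y, hy⟩
    obtain ⟨Φ, b1, b2⟩ := transfer_sub M (Subgroup.zpowers g ⊔ M) le_sup_right ψ1 a1 _ ym
      (by simpa only [ψ1, ym, dif_pos] using n0) (by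
        intro l hl
        obtain ⟨s, hs, t, ht, rfl⟩ := Subgroup.mem_sup_of_normal_right.1 hl
        obtain ⟨k, rfl⟩ := Subgroup.mem_zpowers_iff.1 hs
        have e : (g ^ k * t)⁻¹ * g ^ M.index * (g ^ k * t) = t⁻¹ * g ^ M.index * t := by group
        rw [e]
        simp only [ψ1, ym, cm t _ ym, dif_pos]
        exact deg_conj ψ0 a0 ⟨t, ht⟩ ⟨_, ym⟩)
    obtain ⟨δ, hδ, hd⟩ := sub_comm hT _ Φ b1 b2
    have hc : n⁻¹ * (g⁻¹ * n * g) ∈ M := M.mul_mem (M.inv_mem hn) (cm g n hn)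
    have sq : (n⁻¹ * (g⁻¹ * n * g)) * (n⁻¹ * (g⁻¹ * n * g)) = 1 := by
      rcases hd n (Subgroup.mem_sup_right hn) g
        (Subgroup.mem_sup_left (Subgroup.mem_zpowers g)) with e | e <;> rw [e]
      · simp
      · exact hδ
    have z1 : ψ 1 = 0 := by have := hψ 1 M.one_mem 1 M.one_mem; simp at this; exact this
    have z2 := hψ _ hc _ hc
    rw [sq, z1] at z2
    have z3 := hψ n hn _ hc
    rw [mul_inv_cancel_left] at z3
    omega
  have hall : ∀ g : G, ∀ n ∈ M, ψ (g⁻¹ * n * g) = ψ n := by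
    intro g
    have hg : g ∈ infGen G := hgen ▸ Subgroup.mem_top g
    induction hg using Subgroup.closure_induction with
    | mem x hx => exact hfix x hx
    | one => simp
    | mul x y _ _ hx hy =>
      intro n hn
      have : (x * y)⁻¹ * n * (x * y) = y⁻¹ * (x⁻¹ * n * x) * y := by group
      rw [this, hy _ (cm x n hn), hx n hn]
    | inv x _ hx =>
      intro n hn
      have := hx _ (cm x⁻¹ n hn)
      rw [← this]
      congr 1
      group
  obtain ⟨Φ, b1, b2⟩ := transfer_ne M ψ hψ y0 hy0 hy0' (fun g => hall g y0 hy0)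
  exact not_three hT (MonoidHom.id G) Function.injective_id Φ b1 ⟨y0, b2⟩ a

lemma allTrans_sub (hT : AllTrans G) (H : Subgroup G) : AllTrans H := by
  intro S a b c h1 h2
  have m : ∀ x : S, ((x : H) : G) ∈ S.map (H.subtype : H →ₙ* G) := fun x => ⟨x, x.2, rfl⟩
  have e : ∀ x y : S, PConj x y ↔
      PConj (⟨_, m x⟩ : S.map (H.subtype : H →ₙ* G)) ⟨_, m y⟩ := by
    intro x y
    rw [pconj_iff, pconj_iff]
    constructor
    · rintro (h | ⟨u, hu, v, hv, e1, e2⟩)
      · exact Or.inl (congrArg (fun z : H => (z : G)) h)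
      · exact Or.inr ⟨u, ⟨u, hu, rfl⟩, v, ⟨v, hv, rfl⟩, congrArg Subtype.val e1,
          congrArg Subtype.val e2⟩
    · rintro (h | ⟨_, ⟨u, hu, rfl⟩, _, ⟨v, hv, rfl⟩, e1, e2⟩)
      · exact Or.inl (Subtype.ext h)
      · exact Or.inr ⟨u, hu, v, hv, Subtype.ext e1, Subtype.ext e2⟩
  exact (e a c).2 (hT _ _ _ _ ((e a b).1 h1) ((e b c).1 h2))

lemma fin_support {s : Set G} {x : G} (hx : x ∈ Subgroup.closure s) :
    ∃ t : Set G, t.Finite ∧ t ⊆ s ∧ x ∈ Subgroup.closure t := by
  induction hx using Subgroup.closure_induction with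
  | mem x hx => exact ⟨{x}, Set.finite_singleton x, by simpa using hx,
      Subgroup.subset_closure rfl⟩
  | one => exact ⟨∅, Set.finite_empty, Set.empty_subset _, one_mem _⟩
  | mul x y _ _ hx hy =>
    obtain ⟨t1, f1, s1, m1⟩ := hx
    obtain ⟨t2, f2, s2, m2⟩ := hy
    exact ⟨t1 ∪ t2, f1.union f2, Set.union_subset s1 s2,
      mul_mem (Subgroup.closure_mono Set.subset_union_left m1)
        (Subgroup.closure_mono Set.subset_union_right m2)⟩
  | inv x _ hx =>
    obtain ⟨t, f, s, m⟩ := hx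
    exact ⟨t, f, s, inv_mem m⟩

lemma forward (hG : Tame G) (hT : AllTrans G) (a : infGen G) : ¬ Three a := by
  rintro ⟨g, h, p1, p2, p3⟩
  obtain ⟨t1, f1, s1, m1⟩ := fin_support a.2
  obtain ⟨t2, f2, s2, m2⟩ := fin_support g.2
  obtain ⟨t3, f3, s3, m3⟩ := fin_support h.2
  set t := t1 ∪ (t2 ∪ t3) with ht
  have ft : t.Finite := f1.union (f2.union f3)
  have st : t ⊆ {x | ¬ IsOfFinOrder x} := Set.union_subset s1 (Set.union_subset s2 s3)
  have ma : (a : G) ∈ Subgroup.closure t := Subgroup.closure_mono Set.subset_union_left m1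
  have mg : (g : G) ∈ Subgroup.closure t :=
    Subgroup.closure_mono (Set.subset_union_left.trans Set.subset_union_right) m2
  have mh : (h : G) ∈ Subgroup.closure t :=
    Subgroup.closure_mono (Set.subset_union_right.trans Set.subset_union_right) m3
  have fg : (Subgroup.closure t).FG := (Subgroup.fg_iff _).2 ⟨t, rfl, ft⟩
  by_cases q : ∃ x ∈ Subgroup.closure t, ¬ IsOfFinOrder x
  swap
  · push Not at q
    have : t = ∅ := Set.eq_empty_of_forall_notMem fun x hx =>
      st hx (q x (Subgroup.subset_closure hx))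
    rw [this, Subgroup.closure_empty, Subgroup.mem_bot] at mg
    apply p1
    apply Subtype.ext
    simp [mg]
  obtain ⟨N, hN, φ, hφ⟩ := hG _ fg q (fun x _ y _ e => free_not _ e hT)
  have : Group.FG (Subgroup.closure t) := (Group.fg_iff_subgroup_fg _).2 fg
  have hgen : infGen (Subgroup.closure t) = ⊤ := by
    rw [eq_top_iff, ← Subgroup.closure_closure_coe_preimage]
    refine Subgroup.closure_mono fun x hx e => st hx ?_
    exact (Subgroup.closure t).subtype.isOfFinOrder e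
  refine key (allTrans_sub hT _) N φ hφ hgen ⟨a, ma⟩ ⟨⟨g, mg⟩, ⟨h, mh⟩, ?_, ?_, ?_⟩
  · exact fun e => p1 (Subtype.ext (congrArg (fun z : Subgroup.closure t => (z : G)) e))
  · exact fun e => p2 (Subtype.ext (congrArg (fun z : Subgroup.closure t => (z : G)) e))
  · exact fun e => p3 (Subtype.ext (congrArg (fun z : Subgroup.closure t => (z : G)) e))

lemma encard_le (h : ∀ a : infGen G, ¬ Three a) :
    ((⁅infGen G, infGen G⁆ : Subgroup G) : Set G).encard ≤ 2 := by
  obtain ⟨γ, h1, h2⟩ := one_comm h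
  have hγ : (γ : G) * γ = 1 := by simpa using congrArg Subtype.val h1
  let K : Subgroup G :=
    { carrier := {1, (γ : G)}
      mul_mem' := by rintro _ _ (rfl | rfl) (rfl | rfl) <;> simp [hγ]
      one_mem' := Or.inl rfl
      inv_mem' := by
        rintro _ (rfl | rfl)
        · simp
        · exact Or.inr (inv_eq_of_mul_eq_one_right hγ) }
  have : ⁅infGen G, infGen G⁆ ≤ K := by
    rw [Subgroup.commutator_le]
    intro a ha b hb
    have e : ⁅a, b⁆ = a⁻¹⁻¹ * (b⁻¹⁻¹ * a⁻¹ * b⁻¹) := by rw [commutatorElement_def]; group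
    rw [e]
    rcases h2 ⟨a⁻¹, inv_mem ha⟩ ⟨b⁻¹, inv_mem hb⟩ with q | q
    · exact Or.inl (congrArg Subtype.val q)
    · exact Or.inr (congrArg Subtype.val q)
  refine (Set.encard_le_encard this).trans ?_
  refine (Set.encard_insert_le _ _).trans ?_
  rw [Set.encard_singleton]
  rfl

lemma backward (h : ((⁅infGen G, infGen G⁆ : Subgroup G) : Set G).encard ≤ 2) :
    AllTrans G := by
  intro S a b c h1 h2
  rcases (pconj_iff S _ _).1 h1 with e | ⟨u, hu, v, hv, ea, eb⟩
  · rwa [Subtype.ext e]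
  rcases (pconj_iff S _ _).1 h2 with e | ⟨u', hu', v', hv', eb', ec⟩
  · rwa [← Subtype.ext e]
  have tors : ∀ x ∈ S, x ∉ infGen G → x⁻¹ ∈ S := by
    intro x hx hn
    have : IsOfFinOrder x := by
      by_contra hh
      exact hn (Subgroup.subset_closure hh)
    obtain ⟨n, n0, hn⟩ := isOfFinOrder_iff_pow_eq_one.1 this
    have pw : ∀ k : ℕ, x ^ (k + 1) ∈ S := by
      intro k
      induction k with
      | zero => simpa using hx
      | succ k ih => rw [pow_succ]; exact S.mul_mem ih hx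
    have : x⁻¹ = x ^ (2 * n - 2 + 1) := by
      apply inv_eq_of_mul_eq_one_right
      rw [← pow_succ']
      have : 2 * n - 2 + 1 + 1 = n * 2 := by omega
      rw [this, pow_mul, hn, one_pow]
    rw [this]; exact pw _
  have unit : ∀ s ∈ S, ∀ t ∈ S, ¬ (s ∈ infGen G ∧ t ∈ infGen G) → (s * t)⁻¹ ∈ S := by
    intro s hs t ht hn
    by_cases q : s * t ∈ infGen G
    · have qs : s ∉ infGen G := fun e => hn ⟨e, (Subgroup.mul_mem_cancel_left _ e).1 q⟩
      have qt : t ∉ infGen G := fun e => hn ⟨(Subgroup.mul_mem_cancel_right _ e).1 q, e⟩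
      rw [mul_inv_rev]
      exact S.mul_mem (tors t ht qt) (tors s hs qs)
    · exact tors _ (S.mul_mem hs ht) q
  have fromb : (b : G)⁻¹ ∈ S → PConj a c := by
    intro hb
    have i1 : u⁻¹ ∈ S := by
      have : u⁻¹ = (b : G)⁻¹ * v := by rw [eb]; group
      rw [this]; exact S.mul_mem hb hv
    have i2 : u'⁻¹ ∈ S := by
      have : u'⁻¹ = v' * (b : G)⁻¹ := by rw [eb']; group
      rw [this]; exact S.mul_mem hv' hb
    refine (pconj_iff S _ _).2 (Or.inr ⟨u * u', S.mul_mem hu hu', u'⁻¹ * v, S.mul_mem i2 hv,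
      by rw [ea]; group, ?_⟩)
    calc (c : G) = u'⁻¹ * (u' * v') * u' := by rw [ec]; group
      _ = u'⁻¹ * v * (u * u') := by rw [← eb', eb]; group
  by_cases q1 : v ∈ infGen G ∧ u ∈ infGen G
  swap
  · exact fromb (eb ▸ unit v hv u hu q1)
  by_cases q2 : u' ∈ infGen G ∧ v' ∈ infGen G
  swap
  · exact fromb (eb' ▸ unit u' hu' v' hv' q2)
  have k1 : (b : G)⁻¹ * a ∈ ⁅infGen G, infGen G⁆ := by
    have : (b : G)⁻¹ * a = ⁅u⁻¹, v⁻¹⁆ := by rw [ea, eb, commutatorElement_def]; group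
    rw [this]
    exact Subgroup.commutator_mem_commutator (inv_mem q1.2) (inv_mem q1.1)
  have k2 : (b : G)⁻¹ * c ∈ ⁅infGen G, infGen G⁆ := by
    have : (b : G)⁻¹ * c = ⁅v'⁻¹, u'⁻¹⁆ := by rw [ec, eb', commutatorElement_def]; group
    rw [this]
    exact Subgroup.commutator_mem_commutator (inv_mem q2.2) (inv_mem q2.1)
  by_cases e1 : (a : G) = b
  · rwa [Subtype.ext e1]
  by_cases e2 : (b : G) = c
  · rwa [← Subtype.ext e2]
  by_cases e3 : (a : G) = c
  · exact (pconj_iff S _ _).2 (Or.inl e3)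
  exfalso
  have sub : ({1, (b : G)⁻¹ * a, (b : G)⁻¹ * c} : Set G) ⊆
      ((⁅infGen G, infGen G⁆ : Subgroup G) : Set G) := by
    rintro _ (rfl | rfl | rfl)
    · exact one_mem _
    · exact k1
    · exact k2
  have three : ({1, (b : G)⁻¹ * a, (b : G)⁻¹ * c} : Set G).encard = 3 := by
    refine Set.encard_eq_three.2 ⟨_, _, _, ?_, ?_, ?_, rfl⟩
    · intro e; exact e1 (eq_inv_mul_iff_mul_eq.1 e |>.symm.trans (mul_one _))
    · intro e; exact e2 ((mul_one _).symm.trans (eq_inv_mul_iff_mul_eq.1 e))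
    · intro e; exact e3 (mul_left_cancel e)
  have := (Set.encard_le_encard sub).trans h
  rw [three] at this
  exact absurd this (by decide)

theorem classification (hG : Tame G) :
    AllTrans G ↔ ((⁅infGen G, infGen G⁆ : Subgroup G) : Set G).encard ≤ 2 :=
  ⟨fun hT => encard_le (forward hG hT), backward⟩

/-- An infinite finitely generated solvable group is virtually indicable. -/
lemma solv_ind : ∀ (n : ℕ) (K : Type) [Group K] [Group.FG K] [Infinite K],
    derivedSeries K n = ⊥ →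
    ∃ N : Subgroup K, N.FiniteIndex ∧ ∃ φ : N →* Multiplicative ℤ, φ ≠ 1 := by
  intro n
  induction n with
  | zero =>
    intro K _ _ _ h
    rw [derivedSeries_zero] at h
    obtain ⟨x, y, hxy⟩ := exists_pair_ne K
    exact absurd ((Subgroup.mem_bot.1 (h ▸ Subgroup.mem_top x)).trans
      (Subgroup.mem_bot.1 (h ▸ Subgroup.mem_top y)).symm) hxy
  | succ n ih =>
    intro K _ _ _ h
    have : Group.FG (Abelianization K) :=
      Group.fg_of_surjective (f := Abelianization.of) (QuotientGroup.mk'_surjective _)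
    by_cases q : ∃ y : Abelianization K, ¬ IsOfFinOrder y
    · obtain ⟨y, hy⟩ := q
      have : Module.Finite ℤ (Additive (Abelianization K)) :=
        Module.Finite.iff_addGroup_fg.2 inferInstance
      obtain ⟨f, hf⟩ := fg_dual (Additive.ofMul y) (by
        intro k hk e
        exact hy (isOfFinOrder_iff_zpow_eq_one.2 ⟨k, hk, e⟩))
      obtain ⟨x, rfl⟩ := QuotientGroup.mk'_surjective _ y
      refine ⟨⊤, inferInstance, MonoidHom.mk'
        (fun g => Multiplicative.ofAdd (f (Additive.ofMul (Abelianization.of (g : K)))))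
        (fun a b => by simp [ofAdd_add]), fun e => hf ?_⟩
      have := DFunLike.congr_fun e ⟨x, Subgroup.mem_top x⟩
      exact this
    · push Not at q
      have : Finite (K ⧸ commutator K) :=
        CommGroup.finite_of_fg_isMulTorsion (Abelianization K) q
      have fi : (commutator K).FiniteIndex := Subgroup.finiteIndex_of_finite_quotient
      have : Infinite (commutator K) := by
        by_contra hh
        rw [not_infinite_iff_finite] at hh
        have := (commutator K).card_mul_index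
        rw [Nat.card_eq_zero_of_infinite (α := K)] at this
        rcases mul_eq_zero.1 this with e | e
        · exact Nat.card_pos.ne' e
        · exact fi.index_ne_zero e
      have hd : ∀ m, (derivedSeries (commutator K) m).map (commutator K).subtype ≤
          derivedSeries K (m + 1) := by
        intro m
        induction m with
        | zero =>
          rw [derivedSeries_zero, derivedSeries_one]
          rintro _ ⟨x, -, rfl⟩
          exact x.2
        | succ m ihm =>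
          rw [derivedSeries_succ, derivedSeries_succ K (m + 1), Subgroup.map_commutator]
          exact Subgroup.commutator_mono ihm ihm
      have hb : derivedSeries (commutator K) n = ⊥ := by
        have := hd n
        rw [h, le_bot_iff, Subgroup.map_eq_bot_iff_of_injective _
          (commutator K).subtype_injective] at this
        exact this
      obtain ⟨N, hN, φ, hφ⟩ := ih (commutator K) hb
      refine ⟨N.map (commutator K).subtype, ⟨?_⟩,
        φ.comp (N.equivMapOfInjective _ (commutator K).subtype_injective).symm.toMonoidHom,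
        fun e => hφ ?_⟩
      · rw [Subgroup.index_map_subtype]
        exact mul_ne_zero hN.index_ne_zero fi.index_ne_zero
      · ext x
        have := DFunLike.congr_fun e
          (N.equivMapOfInjective _ (commutator K).subtype_injective x)
        simpa using this

/-- Solvable groups are tame. -/
theorem tame_of_solvable [Group.IsSolvable G] : Tame G := by
  rintro H hH ⟨x, hx, hx'⟩ -
  have : Group.FG H := (Group.fg_iff_subgroup_fg _).2 hH
  have : Infinite H := by
    by_contra hh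
    rw [not_infinite_iff_finite] at hh
    exact hx' (H.subtype.isOfFinOrder (isOfFinOrder_of_finite (⟨x, hx⟩ : H)))
  obtain ⟨n, hn⟩ := Group.IsSolvable.solvable (G := H)
  exact solv_ind n H hn

end Pool.Agent.Lib.PC70
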